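import Mathlib
import Pool.Agent.W192.CY.Stn
import Pool.Agent.W196.CY.TAIL

/-!
CYG-TAIL: the tail sum over a subgroup, all moduli.  Adaptation of the file of helper196.
-/

set_option autoImplicit false

namespace Pool.Agent.W736.CY.GTAIL

open Pool.Agent.W192.CY
open Pool.Agent.W196.CY (pw case1 case2 fiber_bound)

/-- the block estimate -/
theorem block (hC : G_COUNT) {ε : ℝ} (hε : 0 < ε) (hε4 : ε < 1 / 4) :
    ∃ K : ℝ, 0 < K ∧ ∀ (q : ℕ) [NeZero q] (d e : ℕ), e ∣ d →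
      (q : ℝ) ^ (3 / 4 + ε) ≤ d → ∀ H : Subgroup (ZMod q)ˣ, e * Nat.card H ≤ q →
      ∀ Y : ℝ, 1 ≤ Y → (q : ℝ) ^ (ε / 2) < Y →
      (e : ℝ) * cnt q H Y * Y ^ (-1 / 2 + ε / 16) *
        Real.exp (-(Y / (2 * (q : ℝ) ^ (3 / 2 + ε / 2)))) ≤
        K * (d * (q : ℝ) ^ (-(ε ^ 2 / 4))) * Y ^ (-(ε ^ 2 / 4) / 2) := by
  have hη : 0 < ε / 16 := by positivity
  have hδ : 0 < ε ^ 2 / 4 := by positivity
  set J : ℕ := ⌈1 / ε⌉₊ with hJdef
  have hJ1 : 1 ≤ ε * J := by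
    have h1 : 1 / ε ≤ J := Nat.le_ceil _
    have h2 : ε * (1 / ε) = 1 := by field_simp
    nlinarith
  have hJ2 : (J : ℝ) * (ε ^ 2 / 4) ≤ 5 * ε / 16 := by
    have h1 : (J : ℝ) < 1 / ε + 1 := Nat.ceil_lt_add_one (by positivity)
    have h3 : (1 / ε + 1) * (ε ^ 2 / 4) = ε / 4 + ε ^ 2 / 4 := by field_simp
    nlinarith
  have hex : ∀ j : ℕ, ∃ C : ℝ, 0 < C ∧ (1 ≤ j → ∀ (q : ℕ) [NeZero q]
      (H : Subgroup (ZMod q)ˣ) (y : ℝ), 1 ≤ y →
        (cnt q H y : ℝ) ^ j ≤ C * y ^ (ε / 16) * (y ^ j / q + 1) * Nat.card H) := by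
    intro j
    by_cases hj : 1 ≤ j
    · obtain ⟨C, hC0, hC1⟩ := hC j hj (ε / 16) hη
      exact ⟨C, hC0, fun _ => hC1⟩
    · exact ⟨1, one_pos, fun h => absurd h hj⟩
  choose Cj hCj0 hCj using hex
  set K : ℝ := 1 + ∑ j ∈ Finset.range (J + 1), Cj j with hK
  have hKj : ∀ j, j ≤ J → Cj j ≤ K := by
    intro j hj
    have h1 : Cj j ≤ ∑ j ∈ Finset.range (J + 1), Cj j :=
      Finset.single_le_sum (f := Cj) (fun i _ => (hCj0 i).le) (by simp; omega)
    linarith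
  have hK1 : 1 ≤ K := by
    have : 0 ≤ ∑ j ∈ Finset.range (J + 1), Cj j := Finset.sum_nonneg fun i _ => (hCj0 i).le
    linarith
  refine ⟨4 * K, by positivity, ?_⟩
  intro q hq d e hed hd H hH Y hY1 hYB
  have hqp : 0 < q := Nat.pos_of_ne_zero (NeZero.ne q)
  have hQ1 : (1 : ℝ) ≤ q := by exact_mod_cast hqp
  have hd0 : 0 < d := by
    have h0 : (0 : ℝ) < d :=
      lt_of_lt_of_le (Real.rpow_pos_of_pos (by linarith) _) hd
    exact_mod_cast h0
  have hE : (e : ℝ) ≤ d := by exact_mod_cast Nat.le_of_dvd hd0 hed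
  have hEh : (e : ℝ) * (Nat.card H : ℝ) ≤ q := by exact_mod_cast hH
  have hY0 : 0 < Y := by linarith
  have hcK : ∀ j : ℕ, 1 ≤ j → j ≤ J → (cnt q H Y : ℝ) ^ j ≤
      K * Y ^ (ε / 16) * (Y ^ j / q + 1) * Nat.card H := by
    intro j hj hjJ
    refine (hCj j hj q H Y hY1).trans ?_
    have := hKj j hjJ
    gcongr
  have hJpos : 1 ≤ J := by
    rcases Nat.eq_zero_or_pos J with h0 | h0
    · rw [h0] at hJ1
      norm_num at hJ1
    · exact h0
  rcases le_or_gt ((q : ℝ) ^ (1 / 2 : ℝ)) Y with h | h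
  · refine (case1 (ε := ε) (η := ε / 16) (δ := ε ^ 2 / 4) (Q := q) (D := d) (Y := Y)
      (c := cnt q H Y) (E := e) (h := Nat.card H) (K := K) hε hε4 hη.le hδ ?_ hQ1 hd
      (Nat.cast_nonneg _) hE hEh (by linarith) h ?_)
    · nlinarith
    · have := hcK 1 le_rfl hJpos
      simpa using this
  · have hQ : (1 : ℝ) < q := by
      rcases hQ1.eq_or_lt with h1 | h1
      · rw [← h1, Real.one_rpow] at h
        linarith
      · exact h1
    have h2 := case2 (ε := ε) (η := ε / 16) (δ := ε ^ 2 / 4) (Q := q) (D := d) (Y := Y)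
      (c := cnt q H Y) (E := e) (h := Nat.card H) (K := K) (J := J) hε hε4 hη.le hδ
      (by nlinarith) (by nlinarith) hJ1 hQ hd
      (Nat.cast_nonneg _) (Nat.cast_nonneg _) hE hEh hK1 h hY1 hYB hcK
    have h3 : Real.exp (-(Y / (2 * (q : ℝ) ^ (3 / 2 + ε / 2)))) ≤ 1 := by
      rw [Real.exp_le_one_iff]
      have : 0 ≤ Y / (2 * (q : ℝ) ^ (3 / 2 + ε / 2)) := by positivity
      linarith
    refine le_trans ?_ h2
    exact mul_le_of_le_one_right (by positivity) h3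

theorem t_gtail (hC : G_COUNT) : G_TAIL := by
  intro ε hε hε4
  obtain ⟨K, hK, hb⟩ := block hC hε hε4
  have hδ : 0 < ε ^ 2 / 4 := by positivity
  set δ := ε ^ 2 / 4 with hδd
  set r : ℝ := (2 : ℝ) ^ (-δ / 2) with hr
  have hr0 : 0 < r := Real.rpow_pos_of_pos (by norm_num) _
  have hr1 : r < 1 := Real.rpow_lt_one_of_one_lt_of_neg (by norm_num) (by linarith)
  refine ⟨ε / 16, δ, 2 * K * (1 - r)⁻¹, by positivity, by linarith, hδ,
    by have := sub_pos.mpr hr1; positivity, ?_⟩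
  intro q hq d e hed _ hd H hH
  have hqp : 0 < q := Nat.pos_of_ne_zero (NeZero.ne q)
  have hQ0 : (0 : ℝ) < q := by exact_mod_cast hqp
  have hB0 : 0 < (q : ℝ) ^ (ε / 2) := Real.rpow_pos_of_pos hQ0 _
  have hZ0 : 0 < (q : ℝ) ^ (3 / 2 + ε / 2) := Real.rpow_pos_of_pos hQ0 _
  have hblock : ∀ Y : ℝ, 1 ≤ Y → (q : ℝ) ^ (ε / 2) < Y →
      (e : ℝ) * cnt q H Y * Y ^ (-1 / 2 + ε / 16) *
        Real.exp (-(Y / (2 * (q : ℝ) ^ (3 / 2 + ε / 2)))) ≤
        K * (d * (q : ℝ) ^ (-δ)) * Y ^ (-δ / 2) := hb q d e hed hd H hH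
  set B := (q : ℝ) ^ (ε / 2) with hB
  set Z := (q : ℝ) ^ (3 / 2 + ε / 2) with hZ
  set A := (d : ℝ) * (q : ℝ) ^ (-δ) with hA
  have hA0 : 0 ≤ A := by positivity
  rw [tail, ← tsum_mul_left]
  have hgoal : 2 * K * (1 - r)⁻¹ * d * (q : ℝ) ^ (-δ) = 2 * K * A * (1 - r)⁻¹ := by
    rw [hA]; ring
  rw [hgoal]
  apply Real.tsum_le_of_sum_range_le
  · intro n
    apply mul_nonneg (Nat.cast_nonneg _)
    apply Set.indicator_nonneg
    intro k _
    positivity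
  intro n
  rw [← Finset.mul_sum]
  have hfib : ∑ k ∈ Finset.range n, Set.indicator
        {k : ℕ | B < k ∧ ∃ u ∈ H, ((u : (ZMod q)ˣ) : ZMod q) = (k : ZMod q)}
        (fun k : ℕ => (k : ℝ) ^ (-1 / 2 + ε / 16) * Real.exp (-(k / Z))) k =
      ∑ i ∈ Finset.range (n + 1), ∑ k ∈ (Finset.range n).filter (fun k => Nat.log 2 k = i),
        Set.indicator
        {k : ℕ | B < k ∧ ∃ u ∈ H, ((u : (ZMod q)ˣ) : ZMod q) = (k : ZMod q)}
        (fun k : ℕ => (k : ℝ) ^ (-1 / 2 + ε / 16) * Real.exp (-(k / Z))) k := by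
    symm
    apply Finset.sum_fiberwise_of_maps_to
    intro k hk
    rw [Finset.mem_range] at hk ⊢
    have := Nat.log_le_self 2 k
    omega
  rw [hfib, Finset.mul_sum]
  have hterm : ∀ i ∈ Finset.range (n + 1), (e : ℝ) *
      (∑ k ∈ (Finset.range n).filter (fun k => Nat.log 2 k = i),
        Set.indicator
        {k : ℕ | B < k ∧ ∃ u ∈ H, ((u : (ZMod q)ˣ) : ZMod q) = (k : ZMod q)}
        (fun k : ℕ => (k : ℝ) ^ (-1 / 2 + ε / 16) * Real.exp (-(k / Z))) k) ≤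
      2 * K * A * r ^ i := by
    intro i _
    have h1 := fiber_bound q H hB0 hZ0 (η := ε / 16) (by linarith) (by positivity)
      ((Finset.range n).filter (fun k => Nat.log 2 k = i)) i (fun k hk => (Finset.mem_filter.mp hk).2)
    refine (mul_le_mul_of_nonneg_left h1 (Nat.cast_nonneg _)).trans ?_
    split_ifs with hBi
    · have h2 := hblock ((2 : ℝ) ^ (i + 1)) (one_le_pow₀ (by norm_num)) hBi
      have h3 : ((2 : ℝ) ^ (i + 1)) ^ (-δ / 2) ≤ r ^ i := by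
        have h4 : ((2 : ℝ) ^ (i + 1)) ^ (-δ / 2) = r ^ (i + 1) := by
          rw [hr, ← Real.rpow_natCast, ← Real.rpow_natCast, ← Real.rpow_mul (by norm_num),
            ← Real.rpow_mul (by norm_num), mul_comm]
        rw [h4, pow_succ]
        exact mul_le_of_le_one_right (by positivity) hr1.le
      calc _ = 2 * ((e : ℝ) * cnt q H ((2 : ℝ) ^ (i + 1)) * ((2 : ℝ) ^ (i + 1)) ^ (-1 / 2 + ε / 16)
              * Real.exp (-((2 : ℝ) ^ (i + 1) / (2 * Z)))) := by ring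
        _ ≤ 2 * (K * A * ((2 : ℝ) ^ (i + 1)) ^ (-δ / 2)) := by linarith
        _ ≤ 2 * (K * A * r ^ i) := by
            have : K * A * ((2 : ℝ) ^ (i + 1)) ^ (-δ / 2) ≤ K * A * r ^ i :=
              mul_le_mul_of_nonneg_left h3 (by positivity)
            linarith
        _ = _ := by ring
    · rw [mul_zero]; positivity
  refine (Finset.sum_le_sum hterm).trans ?_
  rw [← Finset.mul_sum]
  apply mul_le_mul_of_nonneg_left _ (by positivity)
  rw [← tsum_geometric_of_lt_one hr0.le hr1]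
  exact (summable_geometric_of_lt_one hr0.le hr1).sum_le_tsum _ (fun i _ => by positivity)

end Pool.Agent.W736.CY.GTAIL
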