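import Pool.Agent.W192.CY.Stneb
import Pool.Agent.W216.CY.Div

/-!
CYN-EUL: Euler product of the twisted Dirichlet series of a newform with character.
Adapted from `Pool.Agent.W97.TW.Euler`.
-/

set_option autoImplicit false

open Filter Topology CongruenceSubgroup

namespace Pool.Agent.W736.CY.NEUL

open Pool.Agent.W192.CY

theorem natCast_pow_cpow (n e : ℕ) (s : ℂ) : ((n : ℂ) ^ e) ^ s = ((n : ℂ) ^ s) ^ e := by
  induction e with
  | zero => simp
  | succ e ih =>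
    rw [pow_succ, pow_succ, ← ih, ← Nat.cast_pow, Complex.natCast_mul_natCast_cpow]

theorem n_eul (h : N_COEF) : N_EUL := by
  intro m hm N _ η g w hg q χ s hs
  obtain ⟨μ, hμ⟩ := h m hm N η g w hg
  set l : ℕ → ℂ := cf g with hl
  have h1 : l 1 = 1 := hg.one
  have hlm : ∀ a b : ℕ, Nat.Coprime a b → l (a * b) = l a * l b := hg.mul
  have hlp : ∀ p j : ℕ, p.Prime → l (p ^ (j + 2)) = l p * l (p ^ (j + 1)) -
    η (p : ZMod N) * (p : ℂ) ^ (2 * m - 1) * l (p ^ j) := hg.pow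
  have hs0 : s ≠ 0 := by
    rintro rfl
    have : (0 : ℝ) ≤ m := Nat.cast_nonneg m
    simp at hs
    linarith
  set δ : ℝ := (s.re - m - 1 / 2) / 2 with hδ
  have hδ0 : 0 < δ := by rw [hδ]; linarith
  obtain ⟨C, hC0, hC⟩ := Pool.Agent.W216.CY.divisor_bound δ hδ0
  have hlb : ∀ n : ℕ, 1 ≤ n → ‖l n‖ ≤ C * (n : ℝ) ^ (δ + 1 / 2 + (m - 1)) := by
    intro n hn
    have hnpos : (0 : ℝ) < n := by exact_mod_cast hn
    have h2 := hμ.cle n hn
    rw [norm_div, norm_pow, Complex.norm_natCast, div_le_iff₀ (by positivity)] at h2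
    have h3 := hC n (by omega)
    have h4 : ((n : ℝ) ^ (m - 1) : ℝ) = (n : ℝ) ^ ((m : ℝ) - 1) := by
      rw [← Real.rpow_natCast, Nat.cast_sub hm, Nat.cast_one]
    rw [h4] at h2
    calc ‖l n‖ ≤ n.divisors.card * Real.sqrt n * (n : ℝ) ^ ((m : ℝ) - 1) := h2
      _ ≤ C * (n : ℝ) ^ δ * Real.sqrt n * (n : ℝ) ^ ((m : ℝ) - 1) := by gcongr
      _ = C * (n : ℝ) ^ (δ + 1 / 2 + (m - 1)) := by
          rw [Real.sqrt_eq_rpow, Real.rpow_add hnpos, Real.rpow_add hnpos]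
          ring
  have hsum : Summable (fun n : ℕ => ‖χ (n : ZMod q) * l n * (n : ℂ) ^ (-s)‖) := by
    have hs2 : Summable (fun n : ℕ => C * (n : ℝ) ^ (-1 - δ)) :=
      (Real.summable_nat_rpow.mpr (by linarith)).mul_left C
    refine Summable.of_nonneg_of_le (fun n => norm_nonneg _) (fun n => ?_) hs2
    rcases Nat.eq_zero_or_pos n with hn | hn
    · subst hn
      rw [Nat.cast_zero, Nat.cast_zero, Complex.zero_cpow (by simpa using hs0)]
      simp only [mul_zero, norm_zero]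
      positivity
    · have hnpos : (0 : ℝ) < n := by exact_mod_cast hn
      rw [norm_mul, norm_mul]
      have h2 : ‖χ (n : ZMod q)‖ ≤ 1 := DirichletCharacter.norm_le_one χ _
      have h3 : ‖(n : ℂ) ^ (-s)‖ = (n : ℝ) ^ (-s.re) := by
        rw [← Complex.ofReal_natCast, Complex.norm_cpow_eq_rpow_re_of_pos hnpos]
        simp
      rw [h3]
      calc ‖χ (n : ZMod q)‖ * ‖l n‖ * (n : ℝ) ^ (-s.re) ≤
            1 * (C * (n : ℝ) ^ (δ + 1 / 2 + (m - 1))) * (n : ℝ) ^ (-s.re) := by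
            gcongr
            exact hlb n hn
        _ = C * (n : ℝ) ^ (-1 - δ) := by
            rw [one_mul, mul_assoc, ← Real.rpow_add hnpos]
            congr 2
            rw [hδ]; ring
  refine ⟨hsum, ?_⟩
  set f : ℕ → ℂ := fun n => χ (n : ZMod q) * l n * (n : ℂ) ^ (-s) with hf
  have hf1 : f 1 = 1 := by simp [hf, h1]
  have hf0 : f 0 = 0 := by
    simp only [hf]
    rw [Nat.cast_zero, Nat.cast_zero, Complex.zero_cpow (by simpa using hs0), mul_zero]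
  have hmul : ∀ {m n : ℕ}, Nat.Coprime m n → f (m * n) = f m * f n := by
    intro m n hmn
    simp only [hf]
    rw [hlm m n hmn]
    rw [Nat.cast_mul, map_mul, Nat.cast_mul, Complex.natCast_mul_natCast_cpow]
    ring
  have hprod := EulerProduct.eulerProduct_hasProd hf1 hmul hsum hf0
  have hterm : ∀ p : Nat.Primes, ∑' e : ℕ, f ((p : ℕ) ^ e) =
      (1 - χ ((p : ℕ) : ZMod q) * l p * ((p : ℕ) : ℂ) ^ (-s) +
      χ ((p : ℕ) : ZMod q) ^ 2 * η ((p : ℕ) : ZMod N) *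
        ((p : ℕ) : ℂ) ^ (2 * (m : ℂ) - 1 - 2 * s))⁻¹ := by
    intro p
    have hp1 : 1 < (p : ℕ) := p.2.one_lt
    have hp0 : ((p : ℕ) : ℂ) ≠ 0 := by exact_mod_cast p.2.ne_zero
    have hsp : Summable (fun e : ℕ => f ((p : ℕ) ^ e)) :=
      (Summable.of_norm hsum).comp_injective (Nat.pow_right_injective hp1)
    set X : ℂ := χ ((p : ℕ) : ZMod q) * ((p : ℕ) : ℂ) ^ (-s) with hX
    set E : ℂ := η ((p : ℕ) : ZMod N) * ((p : ℕ) : ℂ) ^ (2 * m - 1) with hE
    have hpow : ∀ e : ℕ, f ((p : ℕ) ^ e) = l ((p : ℕ) ^ e) * X ^ e := by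
      intro e
      simp only [hf]
      rw [Nat.cast_pow, map_pow, Nat.cast_pow, hX, mul_pow]
      rw [natCast_pow_cpow]
      ring
    have hX2 : χ ((p : ℕ) : ZMod q) ^ 2 * η ((p : ℕ) : ZMod N) *
        ((p : ℕ) : ℂ) ^ (2 * (m : ℂ) - 1 - 2 * s) = E * X ^ 2 := by
      have e1 : (2 * (m : ℂ) - 1 - 2 * s) = ((2 * m - 1 : ℕ) : ℂ) + (2 : ℕ) * (-s) := by
        rw [Nat.cast_sub (by omega)]
        push_cast
        ring
      rw [e1, Complex.cpow_add _ _ hp0, Complex.cpow_natCast, Complex.cpow_nat_mul, hE, hX]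
      ring
    have hr : ∀ e : ℕ, f ((p : ℕ) ^ (e + 2)) =
        l p * X * f ((p : ℕ) ^ (e + 1)) - E * X ^ 2 * f ((p : ℕ) ^ e) := by
      intro e
      have h' := hlp p e p.2
      rw [hpow, hpow, hpow, h', hE]
      ring
    set S : ℂ := ∑' e : ℕ, f ((p : ℕ) ^ e) with hS
    have hs1 : S = 1 + ∑' e : ℕ, f ((p : ℕ) ^ (e + 1)) := by
      rw [hS, hsp.tsum_eq_zero_add]
      simp [hf1]
    have hsp1 : Summable (fun e : ℕ => f ((p : ℕ) ^ (e + 1))) :=
      (summable_nat_add_iff 1).mpr hsp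
    have hs2 : S = 1 + l p * X + ∑' e : ℕ, f ((p : ℕ) ^ (e + 2)) := by
      rw [hs1, hsp1.tsum_eq_zero_add]
      have : f ((p : ℕ) ^ (0 + 1)) = l p * X := by
        rw [hpow]
        simp
      rw [this]
      ring_nf
    have hs3 : ∑' e : ℕ, f ((p : ℕ) ^ (e + 2)) =
        l p * X * ∑' e : ℕ, f ((p : ℕ) ^ (e + 1)) - E * X ^ 2 * S := by
      rw [hS, ← tsum_mul_left, ← tsum_mul_left, ← (hsp1.mul_left _).tsum_sub (hsp.mul_left _)]
      exact tsum_congr hr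
    have hs4 : ∑' e : ℕ, f ((p : ℕ) ^ (e + 1)) = S - 1 := by rw [hs1]; ring
    have hfin : S * (1 - l p * X + E * X ^ 2) = 1 := by
      rw [hs3, hs4] at hs2
      linear_combination hs2
    rw [hX2]
    rw [show 1 - χ ((p : ℕ) : ZMod q) * l p * ((p : ℕ) : ℂ) ^ (-s) + E * X ^ 2 =
      1 - l p * X + E * X ^ 2 by
      rw [hX]; ring]
    exact eq_inv_of_mul_eq_one_left hfin
  have hfun : (fun p : Nat.Primes => ∑' e : ℕ, f ((p : ℕ) ^ e)) = (fun p : Nat.Primes =>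
      (1 - χ ((p : ℕ) : ZMod q) * l p * ((p : ℕ) : ℂ) ^ (-s) +
      χ ((p : ℕ) : ZMod q) ^ 2 * η ((p : ℕ) : ZMod N) *
        ((p : ℕ) : ℂ) ^ (2 * (m : ℂ) - 1 - 2 * s))⁻¹) := funext hterm
  rw [hfun] at hprod
  exact hprod

end Pool.Agent.W736.CY.NEUL
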